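import Pool.Agent.Helper37.DC.SS

set_option autoImplicit false

/-! Project DC (helper73), wave 3b (helper37): completeness of one level. -/

namespace Pool.Agent.Helper37.DC

open Pool.Agent.Helper73.DC
open scoped Classical

section

variable {lf cl : ℕ → ℕ} {rs : ℕ → ℕ → ℕ} {wt f : ℕ → ℕ} {D : ℕ}

theorem ev_det {x r m n : ℕ} (h : Ev lf cl rs wt x r m n) :
    ∀ r' m' n', Ev lf cl rs wt x r' m' n' → r = r' ∧ m = m' ∧ n = n' := by
  induction h with
  | leaf x r hx =>
    intro r' m' n' h'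
    cases h' with
    | leaf _ _ hx' =>
      refine ⟨by omega, rfl, rfl⟩
    | node _ r1 m1 n1 _ m2 n2 hx' _ _ => omega
  | node x r1 m1 n1 r2 m2 n2 hx _ _ ih1 ih2 =>
    intro r' m' n' h'
    cases h' with
    | leaf _ _ hx' => omega
    | node _ r1' m1' n1' _ m2' n2' hx' h1' h2' =>
      obtain ⟨a1, a2, a3⟩ := ih1 _ _ _ h1'
      subst a1
      obtain ⟨b1, b2, b3⟩ := ih2 _ _ _ h2'
      exact ⟨b1, by omega, by omega⟩

variable (lf cl rs wt)

/-- the node terminates -/
def Tm (x : ℕ) : Prop := ∃ r m n, Ev lf cl rs wt x r m n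

/-- value -/
noncomputable def vv (x : ℕ) : ℕ := if h : Tm lf cl rs wt x then h.choose else 0

/-- measure -/
noncomputable def mu (x : ℕ) : ℕ := if h : Tm lf cl rs wt x then h.choose_spec.choose else 0

/-- size -/
noncomputable def nu (x : ℕ) : ℕ := if h : Tm lf cl rs wt x then h.choose_spec.choose_spec.choose else 0

variable {lf cl rs wt}

theorem tm_spec {x : ℕ} (h : Tm lf cl rs wt x) :
    Ev lf cl rs wt x (vv lf cl rs wt x) (mu lf cl rs wt x) (nu lf cl rs wt x) := by
  unfold vv mu nu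
  rw [dif_pos h, dif_pos h, dif_pos h]
  exact h.choose_spec.choose_spec.choose_spec

theorem ev_eq {x r m n : ℕ} (h : Ev lf cl rs wt x r m n) :
    Tm lf cl rs wt x ∧ vv lf cl rs wt x = r ∧ mu lf cl rs wt x = m ∧ nu lf cl rs wt x = n := by
  have ht : Tm lf cl rs wt x := ⟨r, m, n, h⟩
  have := ev_det (tm_spec ht) r m n h
  exact ⟨ht, this⟩

theorem tm_node {x : ℕ} (h : Tm lf cl rs wt x) (h0 : lf x = 0) :
    Tm lf cl rs wt (cl x) ∧ Tm lf cl rs wt (rs x (vv lf cl rs wt (cl x))) ∧
    vv lf cl rs wt x = vv lf cl rs wt (rs x (vv lf cl rs wt (cl x))) ∧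
    mu lf cl rs wt x = wt x + mu lf cl rs wt (cl x) + mu lf cl rs wt (rs x (vv lf cl rs wt (cl x))) ∧
    nu lf cl rs wt x = 1 + nu lf cl rs wt (cl x) + nu lf cl rs wt (rs x (vv lf cl rs wt (cl x))) := by
  obtain ⟨r, m, n, h⟩ := h
  obtain ⟨-, e1, e2, e3⟩ := ev_eq h
  cases h with
  | leaf _ _ hx => omega
  | node _ r1 m1 n1 _ m2 n2 hx h1 h2 =>
    obtain ⟨t1, a1, a2, a3⟩ := ev_eq h1
    obtain ⟨t2, b1, b2, b3⟩ := ev_eq h2
    rw [a1]
    refine ⟨t1, t2, by omega, by omega, by omega⟩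

variable (lf cl rs wt)

/-- value of the callee of frame `t` -/
noncomputable def UV (a : ℕ) (Y : ℕ → ℕ) (t : ℕ) : ℕ :=
  if t = 0 then vv lf cl rs wt a else vv lf cl rs wt (cl (Y t))

/-- measure of the callee of frame `t` -/
noncomputable def MV (a : ℕ) (Y : ℕ → ℕ) (t : ℕ) : ℕ :=
  if t = 0 then mu lf cl rs wt a else mu lf cl rs wt (cl (Y t))

/-- invariant of a walk, completeness -/
structure WC (f : ℕ → ℕ) (D a x c q : ℕ) (Y : ℕ → ℕ) : Prop where
  tx : Tm lf cl rs wt x
  fx : f x = 0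
  xD : x < D
  vx : vv lf cl rs wt x = UV lf cl rs wt a Y c
  mx : mu lf cl rs wt x ≤ MV lf cl rs wt a Y c
  nx : nu lf cl rs wt x ≤ nu lf cl rs wt a
  fr : ∀ t, 1 ≤ t → t ≤ c → Tm lf cl rs wt (Y t) ∧ f (Y t) = 0 ∧
    vv lf cl rs wt (Y t) = UV lf cl rs wt a Y (t - 1) ∧ mu lf cl rs wt (Y t) ≤ MV lf cl rs wt a Y (t - 1) ∧
    nu lf cl rs wt (Y t) ≤ nu lf cl rs wt a
  qx : q ≠ 0 → q = vv lf cl rs wt x + 1

variable {lf cl rs wt}

theorem wstep_done (t : ℕ) (b : WS) (h : b.s ≠ 0) : wstep cl rs f t b = b := by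
  unfold wstep; rw [if_pos h]

theorem wc_inv (H1 : ∀ x, lf x ≠ 0 → f x ≠ 0) (H2 : ∀ x r, f x = r + 1 → ∃ m n, Ev lf cl rs wt x r m n)
    (HD : ∀ x, cl x < D ∧ ∀ r, rs x r < D)
    (a : ℕ) (ha : f a = 0) (hT : Tm lf cl rs wt a) (haD : a < D) (i : ℕ) :
    WC lf cl rs wt f D a ((wstep cl rs f 0)^[i] ⟨a, 0, 0, 0⟩).x ((wstep cl rs f 0)^[i] ⟨a, 0, 0, 0⟩).c
      ((wstep cl rs f 0)^[i] ⟨a, 0, 0, 0⟩).s (fun t => ((wstep cl rs f t)^[i] ⟨a, 0, 0, 0⟩).fr) ∧
    (((wstep cl rs f 0)^[i] ⟨a, 0, 0, 0⟩).s = 0 → ∀ j < i,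
      nu lf cl rs wt ((wstep cl rs f 0)^[i] ⟨a, 0, 0, 0⟩).x <
        nu lf cl rs wt ((wstep cl rs f 0)^[j] ⟨a, 0, 0, 0⟩).x) := by
  induction i with
  | zero =>
    refine ⟨⟨hT, ha, haD, ?_, ?_, le_rfl, ?_, ?_⟩, ?_⟩
    · simp [UV]
    · simp [MV]
    · intro t h1 h2
      simp only [Function.iterate_zero, id] at h2
      omega
    · intro h; simp at h
    · intro _ j hj; omega
  | succ i ih =>
    obtain ⟨ih, ihn⟩ := ih
    have hcore : ∀ t, ((wstep cl rs f t)^[i] ⟨a, 0, 0, 0⟩).x = ((wstep cl rs f 0)^[i] ⟨a, 0, 0, 0⟩).x ∧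
      ((wstep cl rs f t)^[i] ⟨a, 0, 0, 0⟩).c = ((wstep cl rs f 0)^[i] ⟨a, 0, 0, 0⟩).c ∧
      ((wstep cl rs f t)^[i] ⟨a, 0, 0, 0⟩).s = ((wstep cl rs f 0)^[i] ⟨a, 0, 0, 0⟩).s :=
      fun t => walk_core a t 0 i
    -- decrease of the size along the walk
    have hdec : (wstep cl rs f 0 ((wstep cl rs f 0)^[i] ⟨a, 0, 0, 0⟩)).s = 0 →
        ((wstep cl rs f 0)^[i] ⟨a, 0, 0, 0⟩).s = 0 ∧
        nu lf cl rs wt (wstep cl rs f 0 ((wstep cl rs f 0)^[i] ⟨a, 0, 0, 0⟩)).x <
          nu lf cl rs wt ((wstep cl rs f 0)^[i] ⟨a, 0, 0, 0⟩).x := by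
      generalize (wstep cl rs f 0)^[i] ⟨a, 0, 0, 0⟩ = b at ih
      intro h
      have hax : lf b.x = 0 := by
        by_contra h; exact H1 _ h ih.fx
      obtain ⟨t1, t2, t3, t4, t5⟩ := tm_node ih.tx hax
      by_cases h1 : b.s ≠ 0
      · unfold wstep at h; rw [if_pos h1] at h; exact absurd h h1
      · refine ⟨by simpa using h1, ?_⟩
        by_cases h2 : f (cl b.x) = 0
        · unfold wstep; rw [if_neg h1, if_pos h2]; simp only; omega
        · obtain ⟨r1, hr1⟩ := Nat.exists_eq_succ_of_ne_zero h2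
          obtain ⟨m1, n1, hE⟩ := H2 _ _ hr1
          obtain ⟨-, g1, -, -⟩ := ev_eq hE
          have e1 : f (cl b.x) - 1 = vv lf cl rs wt (cl b.x) := by omega
          by_cases h3 : f (rs b.x (f (cl b.x) - 1)) = 0
          · unfold wstep; rw [if_neg h1, if_neg h2, if_pos h3]; simp only; rw [e1]; omega
          · unfold wstep at h; rw [if_neg h1, if_neg h2, if_neg h3] at h; exact absurd h h3
    simp only [Function.iterate_succ_apply']
    refine ⟨?_, ?_⟩
    swap
    · intro h j hj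
      obtain ⟨g1, g2⟩ := hdec h
      rcases Nat.lt_succ_iff_lt_or_eq.mp hj with h' | h'
      · exact lt_trans g2 (ihn g1 j h')
      · rw [h']; exact g2
    clear hdec ihn
    generalize hb : (wstep cl rs f 0)^[i] ⟨a, 0, 0, 0⟩ = b at ih hcore
    have hA : ∀ t, (wstep cl rs f t)^[i] ⟨a, 0, 0, 0⟩ =
        ⟨b.x, b.c, b.s, ((wstep cl rs f t)^[i] ⟨a, 0, 0, 0⟩).fr⟩ := by
      intro t
      obtain ⟨h1, h2, h3⟩ := hcore t
      ext <;> simp [h1, h2, h3]
    generalize hY : (fun t => ((wstep cl rs f t)^[i] ⟨a, 0, 0, 0⟩).fr) = Y at ih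
    have hY' : ∀ t, ((wstep cl rs f t)^[i] ⟨a, 0, 0, 0⟩).fr = Y t := fun t => by rw [← hY]
    have hA' : ∀ t, (wstep cl rs f t)^[i] ⟨a, 0, 0, 0⟩ = ⟨b.x, b.c, b.s, Y t⟩ := by
      intro t; rw [hA t, hY' t]
    simp only [hA']
    have hax : lf b.x = 0 := by
      by_contra h; exact H1 _ h ih.fx
    obtain ⟨t1, t2, t3, t4, t5⟩ := tm_node ih.tx hax
    by_cases h1 : b.s ≠ 0
    · have e : ∀ t y, wstep cl rs f t ⟨b.x, b.c, b.s, y⟩ = ⟨b.x, b.c, b.s, y⟩ := by
        intro t y; unfold wstep; rw [if_pos h1]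
      have ea : wstep cl rs f 0 b = b := by unfold wstep; rw [if_pos h1]
      simp only [e, ea]
      exact ih
    · by_cases h2 : f (cl b.x) = 0
      · have e : ∀ t y, wstep cl rs f t ⟨b.x, b.c, b.s, y⟩ =
            ⟨cl b.x, b.c + 1, 0, if b.c + 1 = t then b.x else y⟩ := by
          intro t y; unfold wstep; rw [if_neg h1, if_pos h2]
        have ea : wstep cl rs f 0 b = ⟨cl b.x, b.c + 1, 0, if b.c + 1 = 0 then b.x else b.fr⟩ := by
          unfold wstep; rw [if_neg h1, if_pos h2]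
        simp only [e, ea]
        have hUV : ∀ t, t ≤ b.c → UV lf cl rs wt a (fun t => if b.c + 1 = t then b.x else Y t) t =
            UV lf cl rs wt a Y t := by
          intro t ht
          unfold UV
          have : ¬ (b.c + 1 = t) := by omega
          simp only [this, if_false]
        have hMV : ∀ t, t ≤ b.c → MV lf cl rs wt a (fun t => if b.c + 1 = t then b.x else Y t) t =
            MV lf cl rs wt a Y t := by
          intro t ht
          unfold MV
          have : ¬ (b.c + 1 = t) := by omega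
          simp only [this, if_false]
        refine ⟨t1, h2, (HD _).1, ?_, ?_, ?_, ?_, ?_⟩
        · unfold UV
          rw [if_neg (by omega)]
          simp
        · unfold MV
          rw [if_neg (by omega)]
          simp
        · have := ih.nx; omega
        · intro t ht1 ht2
          by_cases h3 : b.c + 1 = t
          · subst h3
            simp only [if_true]
            have e0 : b.c + 1 - 1 = b.c := by omega
            rw [e0, hUV _ le_rfl, hMV _ le_rfl]
            exact ⟨ih.tx, ih.fx, ih.vx, ih.mx, ih.nx⟩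
          · simp only [h3, if_false]
            rw [hUV _ (by omega), hMV _ (by omega)]
            exact ih.fr t ht1 (by omega)
        · intro h; exact absurd rfl h
      · obtain ⟨r1, hr1⟩ := Nat.exists_eq_succ_of_ne_zero h2
        obtain ⟨m1, n1, hE⟩ := H2 _ _ hr1
        obtain ⟨-, g1, -, -⟩ := ev_eq hE
        have e1 : f (cl b.x) - 1 = vv lf cl rs wt (cl b.x) := by omega
        by_cases h3 : f (rs b.x (f (cl b.x) - 1)) = 0
        · have e : ∀ t y, wstep cl rs f t ⟨b.x, b.c, b.s, y⟩ =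
              ⟨rs b.x (f (cl b.x) - 1), b.c, 0, y⟩ := by
            intro t y; unfold wstep; rw [if_neg h1, if_neg h2, if_pos h3]
          have ea : wstep cl rs f 0 b = ⟨rs b.x (f (cl b.x) - 1), b.c, 0, b.fr⟩ := by
            unfold wstep; rw [if_neg h1, if_neg h2, if_pos h3]
          simp only [e, ea]
          have ihv := ih.vx
          have ihm := ih.mx
          have ihn := ih.nx
          refine ⟨?_, h3, (HD _).2 _, ?_, ?_, ?_, ih.fr, ?_⟩
          · rw [e1]; exact t2
          · rw [e1, ← t3]; exact ihv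
          · rw [e1]
            show _ ≤ MV lf cl rs wt a Y b.c
            omega
          · rw [e1]; omega
          · intro h; exact absurd rfl h
        · have e : ∀ t y, wstep cl rs f t ⟨b.x, b.c, b.s, y⟩ =
              ⟨b.x, b.c, f (rs b.x (f (cl b.x) - 1)), y⟩ := by
            intro t y; unfold wstep; rw [if_neg h1, if_neg h2, if_neg h3]
          have ea : wstep cl rs f 0 b = ⟨b.x, b.c, f (rs b.x (f (cl b.x) - 1)), b.fr⟩ := by
            unfold wstep; rw [if_neg h1, if_neg h2, if_neg h3]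
          simp only [e, ea]
          refine ⟨ih.tx, ih.fx, ih.xD, ih.vx, ih.mx, ih.nx, ih.fr, ?_⟩
          intro _
          obtain ⟨r2, hr2⟩ := Nat.exists_eq_succ_of_ne_zero h3
          obtain ⟨m2, n2, hE2⟩ := H2 _ _ hr2
          obtain ⟨-, g2, -, -⟩ := ev_eq hE2
          rw [e1] at hr2 g2 ⊢
          omega

/-- the walk from a terminating heavy node finds its leaf -/
theorem walk_ends (H1 : ∀ x, lf x ≠ 0 → f x ≠ 0)
    (H2 : ∀ x r, f x = r + 1 → ∃ m n, Ev lf cl rs wt x r m n) (HD : ∀ x, cl x < D ∧ ∀ r, rs x r < D)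
    (a : ℕ) (ha : f a = 0) (hT : Tm lf cl rs wt a) (haD : a < D) : (walk D cl rs f a 0).s ≠ 0 := by
  intro hs
  change ((wstep cl rs f 0)^[D] ⟨a, 0, 0, 0⟩).s = 0 at hs
  have key : ∀ d i, d + i = D → ((wstep cl rs f 0)^[i] ⟨a, 0, 0, 0⟩).s = 0 := by
    intro d
    induction d with
    | zero => intro i hi; have : i = D := by omega
              rw [this]; exact hs
    | succ d ihd =>
      intro i hi
      have h1 := ihd (i + 1) (by omega)
      rw [Function.iterate_succ_apply'] at h1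
      by_contra h2
      rw [wstep_done 0 _ h2] at h1
      exact h2 h1
  have hinj : Set.InjOn (fun i => ((wstep cl rs f 0)^[i] ⟨a, 0, 0, 0⟩).x) (Finset.range (D + 1)) := by
    intro i hi j hj hij
    simp only [Finset.coe_range, Set.mem_Iio] at hi hj
    simp only at hij
    by_contra hne
    rcases Nat.lt_or_gt_of_ne hne with h | h
    · have := (wc_inv H1 H2 HD a ha hT haD j).2 (key (D - j) j (by omega)) i h
      rw [hij] at this
      exact lt_irrefl _ this
    · have := (wc_inv H1 H2 HD a ha hT haD i).2 (key (D - i) i (by omega)) j h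
      rw [hij] at this
      exact lt_irrefl _ this
  have hcard := Finset.card_le_card_of_injOn (s := Finset.range (D + 1)) (t := Finset.range D)
    (fun i => ((wstep cl rs f 0)^[i] ⟨a, 0, 0, 0⟩).x)
    (fun i _ => by
      simp only [Finset.coe_range, Set.mem_Iio]
      exact (wc_inv H1 H2 HD a ha hT haD i).1.xD) hinj
  simp at hcard

theorem pstep_fix1 (s : ℕ) (b : PS) (h : ¬ (b.t = 0 ∧ b.h ≠ 0)) : pstep D cl rs f s b = b := by
  unfold pstep; rw [if_neg h]

theorem iter_fix {α : Type} (g : α → α) (b : α) (h : g b = b) (i : ℕ) : g^[i] b = b := by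
  induction i with
  | zero => rfl
  | succ i ih => rw [Function.iterate_succ_apply', ih, h]

theorem pstep_stab (s : ℕ) : ∀ (i : ℕ) (b : PS), b.h ≤ i →
    pstep D cl rs f s ((pstep D cl rs f s)^[i] b) = (pstep D cl rs f s)^[i] b := by
  intro i
  induction i with
  | zero =>
    intro b hb
    simp only [Function.iterate_zero, id]
    exact pstep_fix1 s b (fun h => h.2 (by omega))
  | succ i ih =>
    intro b hb
    by_cases h : b.t = 0 ∧ b.h ≠ 0
    · rw [Function.iterate_succ_apply]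
      apply ih
      unfold pstep
      rw [if_pos h]
      split_ifs <;> simp only <;> omega
    · have e := pstep_fix1 (D := D) (cl := cl) (rs := rs) (f := f) s b h
      rw [iter_fix _ _ e, e]

/-- one round of the pop sequence of a terminating segment -/
theorem pop_step (H1 : ∀ x, lf x ≠ 0 → f x ≠ 0)
    (H2 : ∀ x r, f x = r + 1 → ∃ m n, Ev lf cl rs wt x r m n) (HD : ∀ x, cl x < D ∧ ∀ r, rs x r < D)
    (a : ℕ) (ha : f a = 0) (hT : Tm lf cl rs wt a) (haD : a < D) (h : ℕ)
    (hh : h < (walk D cl rs f a 0).c) (hhD : h < D) :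
    (popf D cl rs f a (h + 1) (UV lf cl rs wt a (fun t => (walk D cl rs f a t).fr) (h + 1)) =
      popf D cl rs f a h (UV lf cl rs wt a (fun t => (walk D cl rs f a t).fr) h) ∧
      MV lf cl rs wt a (fun t => (walk D cl rs f a t).fr) (h + 1) ≤
        MV lf cl rs wt a (fun t => (walk D cl rs f a t).fr) h) ∨
    ∃ c2, popf D cl rs f a (h + 1) (UV lf cl rs wt a (fun t => (walk D cl rs f a t).fr) (h + 1)) = ⟨h, c2, 1⟩ ∧
      f c2 = 0 ∧ Tm lf cl rs wt c2 ∧ c2 < D ∧ nu lf cl rs wt c2 < nu lf cl rs wt a ∧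
      vv lf cl rs wt c2 = UV lf cl rs wt a (fun t => (walk D cl rs f a t).fr) h ∧
      MV lf cl rs wt a (fun t => (walk D cl rs f a t).fr) (h + 1) + mu lf cl rs wt c2 ≤
        MV lf cl rs wt a (fun t => (walk D cl rs f a t).fr) h := by
  obtain ⟨hW, -⟩ := wc_inv (D := D) H1 H2 HD a ha hT haD D
  obtain ⟨g1, g2, g3, g4, g5⟩ := hW.fr (h + 1) (by omega) hh
  have e0 : h + 1 - 1 = h := by omega
  rw [e0] at g3 g4
  change Tm lf cl rs wt (walk D cl rs f a (h + 1)).fr at g1
  change f (walk D cl rs f a (h + 1)).fr = 0 at g2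
  change vv lf cl rs wt (walk D cl rs f a (h + 1)).fr =
    UV lf cl rs wt a (fun t => (walk D cl rs f a t).fr) h at g3
  change mu lf cl rs wt (walk D cl rs f a (h + 1)).fr ≤
    MV lf cl rs wt a (fun t => (walk D cl rs f a t).fr) h at g4
  change nu lf cl rs wt (walk D cl rs f a (h + 1)).fr ≤ nu lf cl rs wt a at g5
  have eU : UV lf cl rs wt a (fun t => (walk D cl rs f a t).fr) (h + 1) =
      vv lf cl rs wt (cl (walk D cl rs f a (h + 1)).fr) := by
    unfold UV; rw [if_neg (by omega)]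
  have eM : MV lf cl rs wt a (fun t => (walk D cl rs f a t).fr) (h + 1) =
      mu lf cl rs wt (cl (walk D cl rs f a (h + 1)).fr) := by
    unfold MV; rw [if_neg (by omega)]
  generalize UV lf cl rs wt a (fun t => (walk D cl rs f a t).fr) (h + 1) = U1 at eU ⊢
  generalize MV lf cl rs wt a (fun t => (walk D cl rs f a t).fr) (h + 1) = M1 at eM ⊢
  generalize UV lf cl rs wt a (fun t => (walk D cl rs f a t).fr) h = U0 at g3 ⊢
  generalize MV lf cl rs wt a (fun t => (walk D cl rs f a t).fr) h = M0 at g4 ⊢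
  have hlf : lf (walk D cl rs f a (h + 1)).fr = 0 := by
    by_contra h'; exact H1 _ h' g2
  obtain ⟨t1, t2, t3, t4, t5⟩ := tm_node g1 hlf
  rw [← eU] at t2 t3 t4 t5
  obtain ⟨D', hD'⟩ : ∃ D', D = D' + 1 := ⟨D - 1, by omega⟩
  have hit : ∀ b : PS, (pstep D cl rs f a)^[D] b = (pstep D cl rs f a)^[D'] (pstep D cl rs f a b) := by
    intro b
    conv_lhs => rw [show (pstep D cl rs f a)^[D] b = (pstep D cl rs f a)^[D' + 1] b by rw [← hD']]
    rw [Function.iterate_succ_apply]
  by_cases hc2 : f (rs (walk D cl rs f a (h + 1)).fr U1) ≠ 0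
  · left
    refine ⟨?_, by omega⟩
    obtain ⟨r2, hr2⟩ := Nat.exists_eq_succ_of_ne_zero hc2
    obtain ⟨m2, n2, hE2⟩ := H2 _ _ hr2
    obtain ⟨-, k2, -, -⟩ := ev_eq hE2
    have e1 : pstep D cl rs f a ⟨h + 1, U1, 0⟩ = ⟨h, U0, 0⟩ := by
      unfold pstep
      rw [if_pos ⟨rfl, by simp⟩]
      simp only
      rw [if_pos hc2]
      ext
      · rfl
      · show f (rs (walk D cl rs f a (h + 1)).fr U1) - 1 = U0
        omega
      · rfl
    unfold popf
    rw [hit, e1, hD']
    rw [Function.iterate_succ_apply']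
    rw [← hD']
    exact (pstep_stab a D' ⟨h, U0, 0⟩ (by simp only; omega)).symm
  · right
    refine ⟨rs (walk D cl rs f a (h + 1)).fr U1, ?_, by simpa using hc2, t2, (HD _).2 _, by omega,
      by omega, by omega⟩
    have e1 : pstep D cl rs f a ⟨h + 1, U1, 0⟩ = ⟨h, rs (walk D cl rs f a (h + 1)).fr U1, 1⟩ := by
      unfold pstep
      rw [if_pos ⟨rfl, by simp⟩]
      simp only
      rw [if_neg hc2]
      rfl
    unfold popf
    rw [hit, e1]
    exact iter_fix _ _ (pstep_fix1 a _ (fun h => by simp at h)) _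

/-- the machine is at the segment `a` with stack `st`, and the next pop sequence ends in `p` -/
def Rdy (cl : ℕ → ℕ) (rs : ℕ → ℕ → ℕ) (f : ℕ → ℕ) (D a : ℕ) (st : List (ℕ × ℕ)) (X : MS) (p : PS) : Prop :=
  X.s = a ∧ X.st = st ∧ X.fin = false ∧ X.res = 0 ∧ X.q ≠ 0 ∧ popf D cl rs f a X.h (X.q - 1) = p

theorem seg_main (H1 : ∀ x, lf x ≠ 0 → f x ≠ 0)
    (H2 : ∀ x r, f x = r + 1 → ∃ m n, Ev lf cl rs wt x r m n) (HD : ∀ x, cl x < D ∧ ∀ r, rs x r < D)
    (K : ℕ) (HK : ∀ x r m n, x < D → Ev lf cl rs wt x r m n → m < K → f x ≠ 0) :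
    ∀ N a, nu lf cl rs wt a ≤ N → f a = 0 → Tm lf cl rs wt a → a < D →
      ∃ S, S * K + K ≤ mu lf cl rs wt a ∧ ∀ st, ∃ (X : MS) (p : PS),
        (mstep D cl rs f)^[2 * S] ⟨a, (walk D cl rs f a 0).c, (walk D cl rs f a 0).s, st, 0, false⟩ = X ∧
        Rdy cl rs f D a st X p ∧ p.t = 0 ∧ p.r = vv lf cl rs wt a := by
  intro N
  induction N with
  | zero =>
    intro a hN ha hT haD
    have hax : lf a = 0 := by
      by_contra h; exact H1 _ h ha
    have := (tm_node hT hax).2.2.2.2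
    omega
  | succ N ihN =>
    intro a hN ha hT haD
    obtain ⟨hW, -⟩ := wc_inv (D := D) H1 H2 HD a ha hT haD D
    have hcD : (walk D cl rs f a 0).c ≤ D := (walk_main (D := D) H1 H2 a ha).2.2
    have hend := walk_ends H1 H2 HD a ha hT haD
    -- return phase
    have ret : ∀ h, h ≤ (walk D cl rs f a 0).c →
        ∃ S, S * K + MV lf cl rs wt a (fun t => (walk D cl rs f a t).fr) h ≤ mu lf cl rs wt a ∧
        ∀ st X, Rdy cl rs f D a st X
            (popf D cl rs f a h (UV lf cl rs wt a (fun t => (walk D cl rs f a t).fr) h)) →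
          ∃ (X' : MS) (p : PS), (mstep D cl rs f)^[2 * S] X = X' ∧ Rdy cl rs f D a st X' p ∧ p.t = 0 ∧
            p.r = vv lf cl rs wt a := by
      intro h
      induction h with
      | zero =>
        intro _
        refine ⟨0, by simp [MV], ?_⟩
        intro st X hX
        have e0 : popf D cl rs f a 0 (UV lf cl rs wt a (fun t => (walk D cl rs f a t).fr) 0) =
            ⟨0, vv lf cl rs wt a, 0⟩ := by
          unfold popf UV
          rw [if_pos rfl]
          exact iter_fix _ _ (pstep_fix1 a _ (fun h => h.2 rfl)) _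
        refine ⟨X, _, rfl, hX, ?_, ?_⟩
        · rw [e0]
        · rw [e0]
      | succ h ihh =>
        intro hh
        obtain ⟨S, hS, hrun⟩ := ihh (by omega)
        rcases pop_step (D := D) H1 H2 HD a ha hT haD h (by omega) (by omega) with ⟨p1, p2⟩ |
          ⟨c2, p1, p2, p3, p4, p5, p6, p7⟩
        · refine ⟨S, by omega, ?_⟩
          intro st X hX
          rw [p1] at hX
          exact hrun st X hX
        · obtain ⟨S2, hS2, hrun2⟩ := ihN c2 (by omega) p2 p3 p4
          refine ⟨S2 + 1 + S, ?_, ?_⟩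
          · have : (S2 + 1 + S) * K = S2 * K + K + S * K := by ring
            rw [this]; omega
          · intro st X hX
            rw [p1] at hX
            obtain ⟨x1, x2, x3, x4, x5, x6⟩ := hX
            have st1 : mstep D cl rs f X =
                ⟨c2, (walk D cl rs f c2 0).c, (walk D cl rs f c2 0).s, (a, h) :: st, 0, false⟩ := by
              unfold mstep
              rw [if_neg (by rw [x3]; simp), if_neg x5, x1, x6, if_pos rfl, x2]
            obtain ⟨X2, q2, r1, ⟨y1, y2, y3, y4, y5, y6⟩, r3, r4⟩ := hrun2 ((a, h) :: st)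
            have st2 : mstep D cl rs f X2 =
                ⟨a, h, UV lf cl rs wt a (fun t => (walk D cl rs f a t).fr) h + 1, st, 0, false⟩ := by
              unfold mstep
              rw [if_neg (by rw [y3]; simp), if_neg y5, y1, y6, if_neg (by omega), y2, r4, p6]
            obtain ⟨X3, q3, z1, z2, z3, z4⟩ := hrun st
              ⟨a, h, UV lf cl rs wt a (fun t => (walk D cl rs f a t).fr) h + 1, st, 0, false⟩
              ⟨rfl, rfl, rfl, rfl, by simp, by simp⟩
            refine ⟨X3, q3, ?_, z2, z3, z4⟩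
            have e : 2 * (S2 + 1 + S) = 2 * S + (1 + (2 * S2 + 1)) := by ring
            rw [e, Function.iterate_add_apply, Function.iterate_add_apply, Function.iterate_add_apply]
            simp only [Function.iterate_one]
            rw [st1, r1, st2, z1]
    obtain ⟨S, hS, hrun⟩ := ret _ le_rfl
    have hKx : K ≤ mu lf cl rs wt ((wstep cl rs f 0)^[D] ⟨a, 0, 0, 0⟩).x := by
      by_contra hlt
      exact HK _ _ _ _ hW.xD (tm_spec hW.tx) (by omega) hW.fx
    have hmx := hW.mx
    change mu lf cl rs wt ((wstep cl rs f 0)^[D] ⟨a, 0, 0, 0⟩).x ≤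
      MV lf cl rs wt a (fun t => (walk D cl rs f a t).fr) (walk D cl rs f a 0).c at hmx
    refine ⟨S, by omega, ?_⟩
    intro st
    have hq := hW.qx hend
    have hv := hW.vx
    change vv lf cl rs wt ((wstep cl rs f 0)^[D] ⟨a, 0, 0, 0⟩).x =
      UV lf cl rs wt a (fun t => (walk D cl rs f a t).fr) (walk D cl rs f a 0).c at hv
    change (walk D cl rs f a 0).s = vv lf cl rs wt ((wstep cl rs f 0)^[D] ⟨a, 0, 0, 0⟩).x + 1 at hq
    have hq' : (walk D cl rs f a 0).s - 1 =
        UV lf cl rs wt a (fun t => (walk D cl rs f a t).fr) (walk D cl rs f a 0).c := by omega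
    exact hrun st _ ⟨rfl, rfl, rfl, rfl, hend, by simp only; rw [hq']⟩

end

theorem mSC : StSC := by
  intro lf cl rs wt f D kk k K H1 H2 HD hkk HK c r m n hcD hE hm
  by_cases h0 : f c ≠ 0
  · unfold SP; rw [if_pos h0]; exact h0
  · have hc : f c = 0 := by simpa using h0
    obtain ⟨hT, hv, hmu, -⟩ := ev_eq hE
    obtain ⟨S, hS, hrun⟩ := seg_main (D := D) H1 H2 HD K HK _ c le_rfl hc hT hcD
    obtain ⟨X, p, r1, ⟨x1, x2, x3, x4, x5, x6⟩, p1, p2⟩ := hrun []
    have hSk : S + 1 < k := by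
      by_contra hge
      have h1 : k * K ≤ (S + 1) * K := Nat.mul_le_mul_right K (by omega)
      have h2 : (S + 1) * K = S * K + K := by ring
      omega
    unfold SP
    rw [if_neg h0]
    have hinit : minit D cl rs f c =
        ⟨c, (walk D cl rs f c 0).c, (walk D cl rs f c 0).s, [], 0, false⟩ := rfl
    have hfin : mstep D cl rs f X = { X with res := p.r + 1, fin := true } := by
      unfold mstep
      rw [if_neg (by rw [x3]; simp), if_neg x5, x1, x6, if_neg (by omega), x2]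
    have e : kk = (kk - (2 * S + 1)) + (1 + 2 * S) := by omega
    rw [e, Function.iterate_add_apply, Function.iterate_add_apply, hinit, r1, Function.iterate_one, hfin]
    rw [iter_fix (mstep D cl rs f) _ (by unfold mstep; rw [if_pos rfl])]
    simp

end Pool.Agent.Helper37.DC
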