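import Pool.Agent.Helper73.DC.Spec

set_option autoImplicit false

/-! Project DC (helper73), wave 3b (helper37): soundness of one level. -/

namespace Pool.Agent.Helper37.DC

open Pool.Agent.Helper73.DC
open scoped Classical

section

variable (lf cl : ℕ → ℕ) (rs : ℕ → ℕ → ℕ) (wt f : ℕ → ℕ) (D : ℕ)

/-- the node has the value `r` -/
def Vl (x r : ℕ) : Prop := ∃ m n, Ev lf cl rs wt x r m n

variable {lf cl rs wt f D}

theorem Vl.node {x r1 r2 : ℕ} (h0 : lf x = 0) (h1 : Vl lf cl rs wt (cl x) r1)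
    (h2 : Vl lf cl rs wt (rs x r1) r2) : Vl lf cl rs wt x r2 := by
  obtain ⟨m1, n1, h1⟩ := h1
  obtain ⟨m2, n2, h2⟩ := h2
  exact ⟨_, _, Ev.node x r1 m1 n1 r2 m2 n2 h0 h1 h2⟩

/-- components `x`, `c`, `s` of the walk do not depend on the frame number -/
theorem wstep_core (t t' : ℕ) (a b : WS) (h1 : a.x = b.x) (h2 : a.c = b.c) (h3 : a.s = b.s) :
    (wstep cl rs f t a).x = (wstep cl rs f t' b).x ∧ (wstep cl rs f t a).c = (wstep cl rs f t' b).c ∧
    (wstep cl rs f t a).s = (wstep cl rs f t' b).s := by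
  unfold wstep
  rw [h1, h2, h3]
  split_ifs <;> simp_all

theorem walk_core (s t t' i : ℕ) :
    ((wstep cl rs f t)^[i] ⟨s, 0, 0, 0⟩).x = ((wstep cl rs f t')^[i] ⟨s, 0, 0, 0⟩).x ∧
    ((wstep cl rs f t)^[i] ⟨s, 0, 0, 0⟩).c = ((wstep cl rs f t')^[i] ⟨s, 0, 0, 0⟩).c ∧
    ((wstep cl rs f t)^[i] ⟨s, 0, 0, 0⟩).s = ((wstep cl rs f t')^[i] ⟨s, 0, 0, 0⟩).s := by
  induction i with
  | zero => simp
  | succ i ih =>
    rw [Function.iterate_succ_apply', Function.iterate_succ_apply']
    exact wstep_core t t' _ _ ih.1 ih.2.1 ih.2.2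

/-- meaning of `value r returned at height t`, relative to a table of frames -/
def Up (lf cl : ℕ → ℕ) (rs : ℕ → ℕ → ℕ) (wt : ℕ → ℕ) (s : ℕ) (Y : ℕ → ℕ) (t r : ℕ) : Prop :=
  if t = 0 then Vl lf cl rs wt s r else Vl lf cl rs wt (cl (Y t)) r

/-- invariant of a walk -/
structure WI (lf cl : ℕ → ℕ) (rs : ℕ → ℕ → ℕ) (wt f : ℕ → ℕ) (s : ℕ) (x c q : ℕ) (Y : ℕ → ℕ) : Prop where
  hx : f x = 0
  hv : ∀ r, Vl lf cl rs wt x r → Up lf cl rs wt s Y c r
  hf : ∀ t, 1 ≤ t → t ≤ c → f (Y t) = 0 ∧ ∀ r, Vl lf cl rs wt (Y t) r → Up lf cl rs wt s Y (t - 1) r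
  hq : q ≠ 0 → Vl lf cl rs wt x (q - 1)

theorem walk_inv (H1 : ∀ x, lf x ≠ 0 → f x ≠ 0) (H2 : ∀ x r, f x = r + 1 → ∃ m n, Ev lf cl rs wt x r m n)
    (s : ℕ) (hs : f s = 0) (i : ℕ) :
    WI lf cl rs wt f s ((wstep cl rs f 0)^[i] ⟨s, 0, 0, 0⟩).x ((wstep cl rs f 0)^[i] ⟨s, 0, 0, 0⟩).c
      ((wstep cl rs f 0)^[i] ⟨s, 0, 0, 0⟩).s (fun t => ((wstep cl rs f t)^[i] ⟨s, 0, 0, 0⟩).fr) ∧
    ((wstep cl rs f 0)^[i] ⟨s, 0, 0, 0⟩).c ≤ i := by
  induction i with
  | zero =>
    refine ⟨⟨hs, ?_, ?_, ?_⟩, le_rfl⟩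
    · intro r hr; simpa [Up] using hr
    · intro t h1 h2
      simp only [Function.iterate_zero, id] at h2
      omega
    · intro h; simp at h
  | succ i ih =>
    obtain ⟨ih, ihc⟩ := ih
    have hcore : ∀ t, ((wstep cl rs f t)^[i] ⟨s, 0, 0, 0⟩).x = ((wstep cl rs f 0)^[i] ⟨s, 0, 0, 0⟩).x ∧
      ((wstep cl rs f t)^[i] ⟨s, 0, 0, 0⟩).c = ((wstep cl rs f 0)^[i] ⟨s, 0, 0, 0⟩).c ∧
      ((wstep cl rs f t)^[i] ⟨s, 0, 0, 0⟩).s = ((wstep cl rs f 0)^[i] ⟨s, 0, 0, 0⟩).s :=
      fun t => walk_core s t 0 i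
    simp only [Function.iterate_succ_apply']
    generalize ha : (wstep cl rs f 0)^[i] ⟨s, 0, 0, 0⟩ = a at ih ihc hcore
    have hA : ∀ t, (wstep cl rs f t)^[i] ⟨s, 0, 0, 0⟩ =
        ⟨a.x, a.c, a.s, ((wstep cl rs f t)^[i] ⟨s, 0, 0, 0⟩).fr⟩ := by
      intro t
      obtain ⟨h1, h2, h3⟩ := hcore t
      ext <;> simp [h1, h2, h3]
    generalize hY : (fun t => ((wstep cl rs f t)^[i] ⟨s, 0, 0, 0⟩).fr) = Y at ih
    have hY' : ∀ t, ((wstep cl rs f t)^[i] ⟨s, 0, 0, 0⟩).fr = Y t := fun t => by rw [← hY]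
    have hA' : ∀ t, (wstep cl rs f t)^[i] ⟨s, 0, 0, 0⟩ = ⟨a.x, a.c, a.s, Y t⟩ := by
      intro t; rw [hA t, hY' t]
    simp only [hA']
    have hax : lf a.x = 0 := by
      by_contra h; exact H1 _ h ih.hx
    by_cases h1 : a.s ≠ 0
    · have e : ∀ t y, wstep cl rs f t ⟨a.x, a.c, a.s, y⟩ = ⟨a.x, a.c, a.s, y⟩ := by
        intro t y; unfold wstep; rw [if_pos h1]
      have ea : wstep cl rs f 0 a = a := by unfold wstep; rw [if_pos h1]
      simp only [e, ea]
      exact ⟨ih, by omega⟩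
    · by_cases h2 : f (cl a.x) = 0
      · have e : ∀ t y, wstep cl rs f t ⟨a.x, a.c, a.s, y⟩ =
            ⟨cl a.x, a.c + 1, 0, if a.c + 1 = t then a.x else y⟩ := by
          intro t y; unfold wstep; rw [if_neg h1, if_pos h2]
        have ea : wstep cl rs f 0 a = ⟨cl a.x, a.c + 1, 0, if a.c + 1 = 0 then a.x else a.fr⟩ := by
          unfold wstep; rw [if_neg h1, if_pos h2]
        simp only [e, ea]
        have hup : ∀ t, t ≤ a.c → ∀ r, Up lf cl rs wt s Y t r →
            Up lf cl rs wt s (fun t => if a.c + 1 = t then a.x else Y t) t r := by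
          intro t ht r h
          unfold Up at h ⊢
          by_cases h0 : t = 0
          · rw [if_pos h0] at h ⊢; exact h
          · rw [if_neg h0] at h ⊢
            have : ¬ (a.c + 1 = t) := by omega
            simp only [this, if_false]
            exact h
        refine ⟨⟨h2, ?_, ?_, ?_⟩, by omega⟩
        · intro r hr
          unfold Up
          rw [if_neg (by omega)]
          simpa using hr
        · intro t ht1 ht2
          by_cases h3 : a.c + 1 = t
          · subst h3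
            simp only [if_true]
            refine ⟨ih.hx, fun r hr => ?_⟩
            exact hup _ (by omega) r (by simpa using ih.hv r hr)
          · simp only [h3, if_false]
            obtain ⟨g1, g2⟩ := ih.hf t ht1 (by omega)
            exact ⟨g1, fun r hr => hup _ (by omega) r (g2 r hr)⟩
        · intro h; exact absurd rfl h
      · obtain ⟨r1, hr1⟩ := Nat.exists_eq_succ_of_ne_zero h2
        have v1 : Vl lf cl rs wt (cl a.x) r1 := H2 _ _ hr1
        have e1 : f (cl a.x) - 1 = r1 := by omega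
        by_cases h3 : f (rs a.x (f (cl a.x) - 1)) = 0
        · have e : ∀ t y, wstep cl rs f t ⟨a.x, a.c, a.s, y⟩ =
              ⟨rs a.x (f (cl a.x) - 1), a.c, 0, y⟩ := by
            intro t y; unfold wstep; rw [if_neg h1, if_neg h2, if_pos h3]
          have ea : wstep cl rs f 0 a = ⟨rs a.x (f (cl a.x) - 1), a.c, 0, a.fr⟩ := by
            unfold wstep; rw [if_neg h1, if_neg h2, if_pos h3]
          simp only [e, ea]
          refine ⟨⟨h3, ?_, ih.hf, ?_⟩, by omega⟩
          · intro r hr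
            rw [e1] at hr
            exact ih.hv r (Vl.node hax v1 hr)
          · intro h; exact absurd rfl h
        · have e : ∀ t y, wstep cl rs f t ⟨a.x, a.c, a.s, y⟩ =
              ⟨a.x, a.c, f (rs a.x (f (cl a.x) - 1)), y⟩ := by
            intro t y; unfold wstep; rw [if_neg h1, if_neg h2, if_neg h3]
          have ea : wstep cl rs f 0 a = ⟨a.x, a.c, f (rs a.x (f (cl a.x) - 1)), a.fr⟩ := by
            unfold wstep; rw [if_neg h1, if_neg h2, if_neg h3]
          simp only [e, ea]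
          refine ⟨⟨ih.hx, ih.hv, ih.hf, ?_⟩, by omega⟩
          intro _
          obtain ⟨r2, hr2⟩ := Nat.exists_eq_succ_of_ne_zero h3
          have v2 : Vl lf cl rs wt (rs a.x (f (cl a.x) - 1)) r2 := H2 _ _ hr2
          rw [e1] at v2
          have e2 : f (rs a.x (f (cl a.x) - 1)) - 1 = r2 := by omega
          show Vl lf cl rs wt a.x (f (rs a.x (f (cl a.x) - 1)) - 1)
          rw [e2]
          exact Vl.node hax v1 v2

/-- value `r` returned at height `h` of the segment `s` -/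
def Rt (lf cl : ℕ → ℕ) (rs : ℕ → ℕ → ℕ) (wt f : ℕ → ℕ) (D s h r : ℕ) : Prop :=
  Up lf cl rs wt s (fun t => (walk D cl rs f s t).fr) h r

theorem walk_main (H1 : ∀ x, lf x ≠ 0 → f x ≠ 0) (H2 : ∀ x r, f x = r + 1 → ∃ m n, Ev lf cl rs wt x r m n)
    (s : ℕ) (hs : f s = 0) :
    ((walk D cl rs f s 0).s ≠ 0 → Rt lf cl rs wt f D s (walk D cl rs f s 0).c ((walk D cl rs f s 0).s - 1)) ∧
    (∀ h, h < (walk D cl rs f s 0).c → f (walk D cl rs f s (h + 1)).fr = 0 ∧
      ∀ r, Vl lf cl rs wt (walk D cl rs f s (h + 1)).fr r → Rt lf cl rs wt f D s h r) ∧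
    (walk D cl rs f s 0).c ≤ D := by
  obtain ⟨hI, hc⟩ := walk_inv (cl := cl) (rs := rs) (wt := wt) H1 H2 s hs D
  refine ⟨fun h => hI.hv _ (hI.hq h), fun h hh => ?_, hc⟩
  exact hI.hf (h + 1) (by omega) hh

/-- invariant of a pop sequence -/
theorem pop_inv (H1 : ∀ x, lf x ≠ 0 → f x ≠ 0) (H2 : ∀ x r, f x = r + 1 → ∃ m n, Ev lf cl rs wt x r m n)
    (s : ℕ) (hs : f s = 0) (h r : ℕ) (hh : h ≤ (walk D cl rs f s 0).c) (hr : Rt lf cl rs wt f D s h r) (i : ℕ) :
    ((((pstep D cl rs f s)^[i] ⟨h, r, 0⟩).t = 0 ∧ ((pstep D cl rs f s)^[i] ⟨h, r, 0⟩).h = h - i ∧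
      Rt lf cl rs wt f D s ((pstep D cl rs f s)^[i] ⟨h, r, 0⟩).h ((pstep D cl rs f s)^[i] ⟨h, r, 0⟩).r) ∨
    (((pstep D cl rs f s)^[i] ⟨h, r, 0⟩).t = 1 ∧ ((pstep D cl rs f s)^[i] ⟨h, r, 0⟩).h < (walk D cl rs f s 0).c ∧
      f ((pstep D cl rs f s)^[i] ⟨h, r, 0⟩).r = 0 ∧
      ∀ r', Vl lf cl rs wt ((pstep D cl rs f s)^[i] ⟨h, r, 0⟩).r r' →
        Rt lf cl rs wt f D s ((pstep D cl rs f s)^[i] ⟨h, r, 0⟩).h r')) := by
  obtain ⟨-, hF, hcD⟩ := walk_main (D := D) H1 H2 s hs
  induction i with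
  | zero => left; simpa using hr
  | succ i ih =>
    rw [Function.iterate_succ_apply']
    generalize (pstep D cl rs f s)^[i] ⟨h, r, 0⟩ = a at ih ⊢
    rcases ih with ⟨h1, h2, h3⟩ | ⟨h1, h2, h3, h4⟩
    · by_cases h0 : a.h = 0
      · have e : pstep D cl rs f s a = a := by
          unfold pstep; rw [if_neg]; intro h; exact h.2 h0
        rw [e]
        left; exact ⟨h1, by omega, h3⟩
      · have hah : a.h - 1 < (walk D cl rs f s 0).c := by omega
        obtain ⟨g1, g2⟩ := hF (a.h - 1) hah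
        have e1 : a.h - 1 + 1 = a.h := by omega
        rw [e1] at g1 g2
        have hlf : lf (walk D cl rs f s a.h).fr = 0 := by
          by_contra h; exact H1 _ h g1
        have v1 : Vl lf cl rs wt (cl (walk D cl rs f s a.h).fr) a.r := by
          unfold Rt Up at h3
          rw [if_neg h0] at h3
          exact h3
        by_cases h5 : f (rs (walk D cl rs f s a.h).fr a.r) ≠ 0
        · have e : pstep D cl rs f s a =
              ⟨a.h - 1, f (rs (walk D cl rs f s a.h).fr a.r) - 1, 0⟩ := by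
            unfold pstep; rw [if_pos ⟨h1, h0⟩, if_pos h5]
          rw [e]
          left
          refine ⟨rfl, by simp only; omega, ?_⟩
          obtain ⟨r2, hr2⟩ := Nat.exists_eq_succ_of_ne_zero h5
          have v2 : Vl lf cl rs wt (rs (walk D cl rs f s a.h).fr a.r) r2 := H2 _ _ hr2
          have e2 : f (rs (walk D cl rs f s a.h).fr a.r) - 1 = r2 := by omega
          simp only
          rw [e2]
          exact g2 _ (Vl.node hlf v1 v2)
        · have e : pstep D cl rs f s a =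
              ⟨a.h - 1, rs (walk D cl rs f s a.h).fr a.r, 1⟩ := by
            unfold pstep; rw [if_pos ⟨h1, h0⟩, if_neg h5]
          rw [e]
          right
          refine ⟨rfl, hah, by simpa using h5, ?_⟩
          intro r' hr'
          exact g2 _ (Vl.node hlf v1 hr')
    · have e : pstep D cl rs f s a = a := by
        unfold pstep; rw [if_neg]; intro h; omega
      rw [e]
      right; exact ⟨h1, h2, h3, h4⟩

/-- the stack of pending segments -/
def SK (lf cl : ℕ → ℕ) (rs : ℕ → ℕ → ℕ) (wt f : ℕ → ℕ) (D c : ℕ) : ℕ → List (ℕ × ℕ) → Prop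
  | s, [] => ∀ r, Vl lf cl rs wt s r → Vl lf cl rs wt c r
  | s, p :: st => (∀ r, Vl lf cl rs wt s r → Rt lf cl rs wt f D p.1 p.2 r) ∧ f p.1 = 0 ∧
      p.2 ≤ (walk D cl rs f p.1 0).c ∧ SK lf cl rs wt f D c p.1 st

/-- invariant of the macro machine -/
def MI (lf cl : ℕ → ℕ) (rs : ℕ → ℕ → ℕ) (wt f : ℕ → ℕ) (D c : ℕ) (a : MS) : Prop :=
  (a.res ≠ 0 → Vl lf cl rs wt c (a.res - 1)) ∧
  (a.fin = false → a.res = 0 ∧ f a.s = 0 ∧ a.h ≤ (walk D cl rs f a.s 0).c ∧
    (a.q ≠ 0 → Rt lf cl rs wt f D a.s a.h (a.q - 1)) ∧ SK lf cl rs wt f D c a.s a.st)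

theorem mstep_inv (H1 : ∀ x, lf x ≠ 0 → f x ≠ 0) (H2 : ∀ x r, f x = r + 1 → ∃ m n, Ev lf cl rs wt x r m n)
    (c : ℕ) (a : MS) (ha : MI lf cl rs wt f D c a) : MI lf cl rs wt f D c (mstep D cl rs f a) := by
  by_cases h0 : a.fin = true
  · have e : mstep D cl rs f a = a := by unfold mstep; rw [if_pos h0]
    rw [e]; exact ha
  · have hfin : a.fin = false := by simpa using h0
    obtain ⟨hres, hs, hh, hq, hst⟩ := ha.2 hfin
    by_cases h1 : a.q = 0
    · have e : mstep D cl rs f a = { a with fin := true } := by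
        unfold mstep; rw [if_neg h0, if_pos h1]
      rw [e]
      refine ⟨ha.1, fun h => by simp at h⟩
    · have hR := hq h1
      obtain ⟨-, -, hcD⟩ := walk_main (D := D) H1 H2 a.s hs
      have hp := pop_inv (D := D) H1 H2 a.s hs a.h (a.q - 1) hh hR D
      change (((popf D cl rs f a.s a.h (a.q - 1)).t = 0 ∧ (popf D cl rs f a.s a.h (a.q - 1)).h = a.h - D ∧
        Rt lf cl rs wt f D a.s (popf D cl rs f a.s a.h (a.q - 1)).h (popf D cl rs f a.s a.h (a.q - 1)).r) ∨
        ((popf D cl rs f a.s a.h (a.q - 1)).t = 1 ∧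
          (popf D cl rs f a.s a.h (a.q - 1)).h < (walk D cl rs f a.s 0).c ∧
          f (popf D cl rs f a.s a.h (a.q - 1)).r = 0 ∧
          ∀ r', Vl lf cl rs wt (popf D cl rs f a.s a.h (a.q - 1)).r r' →
            Rt lf cl rs wt f D a.s (popf D cl rs f a.s a.h (a.q - 1)).h r')) at hp
      by_cases h2 : (popf D cl rs f a.s a.h (a.q - 1)).t = 1
      · rcases hp with ⟨g, -⟩ | ⟨-, g2, g3, g4⟩
        · omega
        have e : mstep D cl rs f a =
          { s := (popf D cl rs f a.s a.h (a.q - 1)).r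
            h := (walk D cl rs f (popf D cl rs f a.s a.h (a.q - 1)).r 0).c
            q := (walk D cl rs f (popf D cl rs f a.s a.h (a.q - 1)).r 0).s
            st := (a.s, (popf D cl rs f a.s a.h (a.q - 1)).h) :: a.st
            res := 0
            fin := false } := by
          unfold mstep; rw [if_neg h0, if_neg h1, if_pos h2]
        rw [e]
        obtain ⟨w1, -, -⟩ := walk_main (D := D) H1 H2 (popf D cl rs f a.s a.h (a.q - 1)).r g3
        refine ⟨fun h => absurd rfl h, fun _ => ⟨rfl, g3, le_rfl, w1, ?_⟩⟩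
        exact ⟨g4, hs, g2.le, hst⟩
      · rcases hp with ⟨g1, g2, g3⟩ | ⟨g, -⟩
        swap
        · exact absurd g h2
        have hz : (popf D cl rs f a.s a.h (a.q - 1)).h = 0 := by omega
        rw [hz] at g3
        have v : Vl lf cl rs wt a.s (popf D cl rs f a.s a.h (a.q - 1)).r := by
          unfold Rt Up at g3; simpa using g3
        cases hst' : a.st with
        | nil =>
          have e : mstep D cl rs f a =
              { a with res := (popf D cl rs f a.s a.h (a.q - 1)).r + 1, fin := true } := by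
            unfold mstep; rw [if_neg h0, if_neg h1, if_neg h2, hst']
          rw [e]
          rw [hst'] at hst
          refine ⟨fun _ => ?_, fun h => by simp at h⟩
          exact hst _ v
        | cons p st' =>
          have e : mstep D cl rs f a =
              { s := p.1, h := p.2, q := (popf D cl rs f a.s a.h (a.q - 1)).r + 1, st := st', res := 0,
                fin := false } := by
            unfold mstep; rw [if_neg h0, if_neg h1, if_neg h2, hst']
          rw [e]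
          rw [hst'] at hst
          obtain ⟨k1, k2, k3, k4⟩ := hst
          refine ⟨fun h => absurd rfl h, fun _ => ⟨rfl, k2, k3, fun _ => ?_, k4⟩⟩
          exact k1 _ v

end

theorem mSS : StSS := by
  intro lf cl rs wt f D kk H1 H2 c r hr
  by_cases h0 : f c ≠ 0
  · unfold SP at hr
    rw [if_pos h0] at hr
    exact H2 c r hr
  · have hc : f c = 0 := by simpa using h0
    unfold SP at hr
    rw [if_neg h0] at hr
    obtain ⟨w1, -, -⟩ := walk_main (D := D) (wt := wt) H1 H2 c hc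
    have hinit : MI lf cl rs wt f D c (minit D cl rs f c) :=
      ⟨fun h => absurd rfl h, fun _ => ⟨rfl, hc, le_rfl, w1, fun r h => h⟩⟩
    have hall : ∀ i, MI lf cl rs wt f D c ((mstep D cl rs f)^[i] (minit D cl rs f c)) := by
      intro i
      induction i with
      | zero => exact hinit
      | succ i ih =>
        rw [Function.iterate_succ_apply']
        exact mstep_inv H1 H2 c _ ih
    have := (hall kk).1 (by omega)
    rw [hr] at this
    exact this

end Pool.Agent.Helper37.DC
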